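import Pool.Agent.Helper53.AE.GoalsD

/-!
# Project AE, packet LFP: completely positive contractions of matrix algebras lift
-/

set_option autoImplicit false

open scoped ComplexOrder Topology
open Filter TopologicalSpace

namespace Pool.Agent.Helper85.AE.LFP

open Pool.Agent.Helper53.AE

/-- unit vectors -/
noncomputable abbrev ev {k : ℕ} (i : Fin k) : EuclideanSpace ℂ (Fin k) := EuclideanSpace.single i 1

/-- matrix units -/
noncomputable def mu {k : ℕ} (i j : Fin k) : Mk k := InnerProductSpace.rankOne ℂ (ev i) (ev j)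

lemma star_mu {k : ℕ} (i j : Fin k) : star (mu i j) = mu j i := by
  rw [ContinuousLinearMap.star_eq_adjoint]
  exact InnerProductSpace.adjoint_rankOne _ _

lemma mu_mul {k : ℕ} (i z j : Fin k) : mu i z * mu z j = mu i j := by
  rw [ContinuousLinearMap.mul_def]
  unfold mu
  rw [InnerProductSpace.rankOne_comp_rankOne]
  simp

lemma inner_ev {k : ℕ} (i : Fin k) (v : EuclideanSpace ℂ (Fin k)) : inner ℂ (ev i) v = v i := by
  rw [ev, EuclideanSpace.inner_single_left]
  simp

lemma expand {k : ℕ} (x : Mk k) : x = ∑ i, ∑ j, (x (ev j)) i • mu i j := by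
  apply ContinuousLinearMap.ext
  intro v
  have hv : v = ∑ j, v j • ev j := by
    have h := (EuclideanSpace.basisFun (Fin k) ℂ).sum_repr v
    simpa using h.symm
  have h1 : x v = ∑ j, v j • x (ev j) := by
    conv_lhs => rw [hv]
    simp
  rw [h1]
  simp only [sum_apply, smul_apply, mu, InnerProductSpace.rankOne_apply, inner_ev]
  rw [Finset.sum_comm]
  apply Finset.sum_congr rfl
  intro j _
  have h2 : x (ev j) = ∑ i, (x (ev j)) i • ev i := by
    have h := (EuclideanSpace.basisFun (Fin k) ℂ).sum_repr (x (ev j))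
    simpa using h.symm
  conv_lhs => rw [h2]
  rw [Finset.smul_sum]
  apply Finset.sum_congr rfl
  intro i _
  rw [smul_comm]

lemma inner_star_mul {k : ℕ} (X Y : Mk k) (i j : Fin k) :
    ((star X * Y) (ev j)) i = ∑ q, star ((X (ev i)) q) * (Y (ev j)) q := by
  rw [← inner_ev i, mul_apply_eq_comp, ContinuousLinearMap.star_eq_adjoint,
    ContinuousLinearMap.adjoint_inner_right, PiLp.inner_apply]
  apply Finset.sum_congr rfl
  intro q _
  simp [mul_comm]

lemma posK_of_fintype {N ι : Type} [NonUnitalCStarAlgebra N] [Fintype ι] {n : ℕ}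
    (K : Fin n → Fin n → N) (W : ι → Fin n → N) (h : ∀ s t, K s t = ∑ j, star (W j s) * W j t) :
    PosK Set.univ K := by
  refine ⟨Fintype.card ι, fun j => W ((Fintype.equivFin ι).symm j), fun _ _ => trivial, ?_⟩
  intro s t
  rw [h]
  exact (Equiv.sum_comp (Fintype.equivFin ι).symm fun j => star (W j s) * W j t).symm

/-- the map `x ↦ ∑ x i j • star (W l i) * W l j` -/
noncomputable def Psi {A : Type} [NonUnitalCStarAlgebra A] {r k : ℕ} (W : Fin r → Fin k → A) :
    Mk k →ₗ[ℂ] A where
  toFun x := ∑ l, ∑ i, ∑ j, (x (ev j)) i • (star (W l i) * W l j)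
  map_add' x y := by
    simp only [add_apply, PiLp.add_apply, add_smul, Finset.sum_add_distrib]
  map_smul' c x := by
    simp only [smul_apply, PiLp.smul_apply, smul_eq_mul, mul_smul,
      Finset.smul_sum, RingHom.id_apply]

lemma Psi_apply {A : Type} [NonUnitalCStarAlgebra A] {r k : ℕ} (W : Fin r → Fin k → A) (x : Mk k) :
    Psi W x = ∑ l, ∑ i, ∑ j, (x (ev j)) i • (star (W l i) * W l j) := rfl

lemma Psi_star_mul {A : Type} [NonUnitalCStarAlgebra A] {r k : ℕ} (W : Fin r → Fin k → A)
    (X Y : Mk k) : Psi W (star X * Y) = ∑ l, ∑ q, star (∑ i, (X (ev i)) q • W l i) *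
      (∑ j, (Y (ev j)) q • W l j) := by
  rw [Psi_apply]
  apply Finset.sum_congr rfl
  intro l _
  have h1 : ∀ q, star (∑ i, (X (ev i)) q • W l i) * (∑ j, (Y (ev j)) q • W l j) =
      ∑ i, ∑ j, (star ((X (ev i)) q) * (Y (ev j)) q) • (star (W l i) * W l j) := by
    intro q
    rw [star_sum, Finset.sum_mul]
    apply Finset.sum_congr rfl
    intro i _
    rw [Finset.mul_sum]
    apply Finset.sum_congr rfl
    intro j _
    rw [star_smul, smul_mul_smul_comm]
  simp only [h1]
  symm
  rw [Finset.sum_comm]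
  apply Finset.sum_congr rfl
  intro i _
  rw [Finset.sum_comm]
  apply Finset.sum_congr rfl
  intro j _
  rw [inner_star_mul, Finset.sum_smul]

lemma Psi_pos {A : Type} [NonUnitalCStarAlgebra A] {r k : ℕ} (W : Fin r → Fin k → A) (n : ℕ)
    (K : Fin n → Fin n → Mk k) (hK : PosK Set.univ K) :
    PosK Set.univ fun i j => Psi W (K i j) := by
  obtain ⟨r', Y, -, hY⟩ := hK
  refine posK_of_fintype (ι := Fin r' × Fin r × Fin k) _
    (fun p s => ∑ i, (Y p.1 s (ev i)) p.2.2 • W p.2.1 i) ?_
  intro s t
  rw [hY, map_sum, Fintype.sum_prod_type]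
  apply Finset.sum_congr rfl
  intro m _
  rw [Psi_star_mul, Fintype.sum_prod_type]

lemma Psi_one {A : Type} [NonUnitalCStarAlgebra A] {r k : ℕ} (W : Fin r → Fin k → A) :
    Psi W 1 = ∑ l, ∑ i, star (W l i) * W l i := by
  rw [Psi_apply]
  apply Finset.sum_congr rfl
  intro l _
  apply Finset.sum_congr rfl
  intro i _
  rw [Finset.sum_eq_single i]
  · simp
  · intro j _ hj
    simp [hj.symm]
  · simp

lemma map_Psi {A B : Type} [NonUnitalCStarAlgebra A] [NonUnitalCStarAlgebra B]
    (π : A →⋆ₙₐ[ℂ] B) {r k : ℕ} (W : Fin r → Fin k → A) (x : Mk k) :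
    π (Psi W x) = Psi (fun l i => π (W l i)) x := by
  simp only [Psi_apply, map_sum, map_smul, map_mul, map_star]

/-- the correcting function -/
noncomputable def g (t : ℝ) : ℝ := (Real.sqrt (max 1 |t|))⁻¹ - 1

lemma g_cont : Continuous g := by
  unfold g
  apply Continuous.sub _ continuous_const
  apply Continuous.inv₀ (by fun_prop)
  intro t
  have : (0 : ℝ) < max 1 |t| := lt_of_lt_of_le one_pos (le_max_left _ _)
  exact (Real.sqrt_pos.2 this).ne'

lemma g_eq_zero {t : ℝ} (h : |t| ≤ 1) : g t = 0 := by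
  unfold g
  rw [max_eq_left h]
  simp

lemma g_bound (t : ℝ) : ‖t + g t * t + (t * g t + g t * t * g t)‖ ≤ 1 := by
  have h1 : (0 : ℝ) < max 1 |t| := lt_of_lt_of_le one_pos (le_max_left _ _)
  have h2 : t + g t * t + (t * g t + g t * t * g t) = t * (1 + g t) ^ 2 := by ring
  have h3 : (1 + g t) ^ 2 = (max 1 |t|)⁻¹ := by
    unfold g
    rw [add_sub_cancel, inv_pow, Real.sq_sqrt h1.le]
  rw [h2, h3, norm_mul, norm_inv, Real.norm_eq_abs, Real.norm_eq_abs, abs_of_pos h1,
    ← div_eq_mul_inv, div_le_one h1]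
  exact le_max_right _ _

theorem t (hCPK : S_CPK) : S_LFP := by
  intro A B _ _ π hπ k ψ hψ hcp
  -- the kernel of the matrix units
  have hker : PosK Set.univ fun i j : Fin k => (mu i j : Mk k) := by
    rcases k with _ | k
    · exact ⟨0, fun j => Fin.elim0 j, fun j => Fin.elim0 j, fun s => Fin.elim0 s⟩
    · refine ⟨1, fun _ i => mu 0 i, fun _ _ => trivial, fun s t => ?_⟩
      simp [star_mu, mu_mul]
  obtain ⟨r, w, -, hw⟩ := hCPK (Mk k) B ψ hcp k _ hker
  have hψw : ∀ x, ψ x = Psi w x := by
    intro x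
    conv_lhs => rw [expand x]
    rw [map_sum, Psi_apply]
    symm
    rw [Finset.sum_comm]
    apply Finset.sum_congr rfl
    intro i _
    rw [Finset.sum_comm, map_sum]
    apply Finset.sum_congr rfl
    intro j _
    have hw2 : ψ (mu i j) = ∑ l, star (w l i) * w l j := hw i j
    rw [map_smul, hw2, Finset.smul_sum]
  choose w' hw' using fun (l : Fin r) (i : Fin k) => hπ (w l i)
  set a : A := Psi w' 1 with ha
  have hasa : IsSelfAdjoint a := by
    rw [ha, Psi_one]
    apply isSelfAdjoint_sum
    intro l _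
    apply isSelfAdjoint_sum
    intro i _
    exact IsSelfAdjoint.star_mul_self _
  have hπa : π a = ψ 1 := by
    rw [ha, map_Psi, hψw]
    simp only [hw']
  have hψ1 : ‖ψ 1‖ ≤ 1 := (hψ 1).trans ContinuousLinearMap.norm_id_le
  set h : A := cfcₙ g a with hh
  have hhsa : IsSelfAdjoint h := cfcₙ_predicate g a
  have hπh : π h = 0 := by
    have hc : Continuous π := by
      have hcl : ContinuousLinearMapClass (A →⋆ₙₐ[ℂ] B) ℂ A B :=
        NonUnitalStarAlgHom.instContinuousLinearMapClassComplex
      exact map_continuous π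
    have h1 : π h = cfcₙ g (π a) := by
      rw [hh]
      exact NonUnitalStarAlgHom.map_cfcₙ π g a g_cont.continuousOn (g_eq_zero (by simp)) hc hasa
        (by rw [IsSelfAdjoint, ← map_star, hasa.star_eq])
    rw [h1, hπa]
    have hsa : IsSelfAdjoint (ψ 1) := by
      rw [← hπa, IsSelfAdjoint, ← map_star, hasa.star_eq]
    rw [cfcₙ_congr (g := fun _ => (0 : ℝ)), cfcₙ_const_zero]
    intro x hx
    apply g_eq_zero
    have h2 := NonUnitalIsometricContinuousFunctionalCalculus.norm_quasispectrum_le (ψ 1) hx hsa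
    rw [Real.norm_eq_abs] at h2
    exact h2.trans hψ1
  refine ⟨Psi fun l i => w' l i + w' l i * h, ?_, ?_, fun n K hK => Psi_pos _ n K hK⟩
  · intro x
    rw [map_Psi, hψw]
    simp only [map_add, map_mul, hπh, mul_zero, add_zero, hw']
  · have h1 : Psi (fun l i => w' l i + w' l i * h) 1 = a + h * a + (a * h + h * a * h) := by
      rw [ha, Psi_one, Psi_one]
      simp only [star_add, star_mul, hhsa.star_eq, add_mul, mul_add, Finset.sum_add_distrib,
        Finset.mul_sum, Finset.sum_mul, mul_assoc]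
    have h2 : a + h * a + (a * h + h * a * h) =
        cfcₙ (fun t => t + g t * t + (t * g t + g t * t * g t)) a := by
      have hg := g_cont
      have hg0 : g 0 = 0 := g_eq_zero (by simp)
      rw [cfcₙ_add (fun t => t + g t * t) (fun t => t * g t + g t * t * g t) a
          (by fun_prop) (by simp) (by fun_prop) (by simp),
        cfcₙ_add (fun t => t) (fun t => g t * t) a (by fun_prop) (by simp) (by fun_prop) (by simp),
        cfcₙ_add (fun t => t * g t) (fun t => g t * t * g t) a (by fun_prop) (by simp)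
          (by fun_prop) (by simp),
        cfcₙ_mul (fun t => g t) (fun t => t) a (by fun_prop) (by simpa using hg0) (by fun_prop)
          (by simp),
        cfcₙ_mul (fun t => t) (fun t => g t) a (by fun_prop) (by simp) (by fun_prop)
          (by simpa using hg0),
        cfcₙ_mul (fun t => g t * t) (fun t => g t) a (by fun_prop) (by simp) (by fun_prop)
          (by simpa using hg0),
        cfcₙ_mul (fun t => g t) (fun t => t) a (by fun_prop) (by simpa using hg0) (by fun_prop)
          (by simp),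
        cfcₙ_id' ℝ a hasa]
    rw [h1, h2]
    exact norm_cfcₙ_le fun x _ => g_bound x

end Pool.Agent.Helper85.AE.LFP
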